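import Pool.Agent.Y770.AP.Rep
import Pool.Agent.TH339.MP.U3

/-!
# The oscillation of `log L` on the edge
-/

set_option autoImplicit false

open Complex Filter Topology Set MeasureTheory Metric NumberField IsDedekindDomain
open scoped ENNReal

namespace Pool.Agent.Y770.EH

open Pool.Agent.TH339.MP
open Pool.Agent.Y770.AP (logL logL_eq FB hbtw)
open Pool.Agent.TH958.BV (edgePoint)

section
variable {K : Type} [Field K] [NumberField K] {N q : ℕ} (χ : DirichletCharacter ℂ q)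
  {i : ℕ} {S : Set (HeightOneSpectrum (𝓞 K))} {α : HeightOneSpectrum (𝓞 K) → Fin N → ℂ}

theorem FB_osc (hα : ∀ v, v ∉ S → ∀ j, ‖α v j‖ = (nm v : ℝ) ^ ((i : ℝ) / 2)) {h : ℝ}
    (hh : 0 < h) (hh2 : h ≤ 1 / 2) (t : ℝ) (c : ℂ)
    (hc : ‖c‖ * ((Module.finrank ℚ K : ℝ) * N) < 1) :
    ∫⁻ u in Icc (t - h / 2) (t + h / 2), ENNReal.ofReal ‖Complex.exp (c * (FB χ i S α u -
      logL χ S α (edgePoint i t + h)))‖ ≤
      ENNReal.ofReal (1000 * h / (1 - ‖c‖ * ((Module.finrank ℚ K : ℝ) * N))) := by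
  have h1 := edge_upper (hbtw χ hα) hh hh2 t c hc
  have e1 : edgePoint i t + h = (((1 + h : ℝ) : ℂ) + t * I) + i / 2 := by
    unfold Pool.Agent.TH958.BV.edgePoint
    push_cast
    ring
  have h2 : 1 < ((((1 + h : ℝ) : ℂ) + t * I)).re := by
    simp
    exact hh
  rw [e1, logL_eq χ hα h2]
  exact h1

end

end Pool.Agent.Y770.EH
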